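import Pool.Agent.Work.MP_c20ce7_st.Outer

/-!
# Theta lifts and ABV-packets of `GL_n(F)`: the answer to Q1 is no (without hypotheses)

Let `W` be a topological group with a continuous norm `|.| : W → ℝ_{>0}` which is not trivial, for instance
the Weil group of a non-archimedean local field `F` with the usual norm. There are L-parameters
`φ, φ', ψ : W × SL_2(ℂ) → GL_35(ℂ)` with the lifts `φ_1, φ'_1, ψ_1 : W × SL_2(ℂ) → GL_36(ℂ)` (that is `α = 1`) such that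
* `φ ≥_C φ'`;
* the irreducible representation `π` of `GL_35(F)` with the parameter `ψ` is in the ABV-packets of `φ` and of
  `φ'`;
* the theta lift `θ_{-1}(π)`, which is the irreducible representation of `GL_36(F)` with the parameter `ψ_1`, is
  in the ABV-packet of `φ'_1`, but not in the ABV-packet of `φ_1`.
-/

set_option autoImplicit false

open Pool.ABV

theorem Pool.Agent.Results.MP_c20ce7_nt.AdamsFails.result
    (h35 : ∃ φ φ' ψ : Pool.Agent.MPc20ce7.Par, Pool.Agent.MPc20ce7.dim φ = 35 ∧ Pool.Agent.MPc20ce7.Geq φ φ' ∧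
      Pool.DM.ABV φ ψ ∧ Pool.DM.ABV φ' ψ ∧
      Pool.DM.ABV (Pool.Agent.MPc20ce7.lift 1 φ') (Pool.Agent.MPc20ce7.lift 1 ψ) ∧
      ¬ Pool.DM.ABV (Pool.Agent.MPc20ce7.lift 1 φ) (Pool.Agent.MPc20ce7.lift 1 ψ))
    (W : Type) [Group W] [TopologicalSpace W]
    (N : Nrm W) :
    ∃ (φ φ' ψ : LParam W (Fin 35)) (φ₁ φ'₁ ψ₁ : LParam W (Fin 35 ⊕ Fin 1)),
      IsLift N 1 φ φ₁ ∧ IsLift N 1 φ' φ'₁ ∧ IsLift N 1 ψ ψ₁ ∧
        Geq N φ φ' ∧ InABV N φ ψ ∧ InABV N φ' ψ ∧ InABV N φ'₁ ψ₁ ∧ ¬ InABV N φ₁ ψ₁ := by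
  obtain ⟨φ, φ', ψ, h1, h2, h3, h4, h5, h6⟩ := h35
  exact outer2 1 35 φ φ' ψ h1 h2 h3 h4 h5 h6 W N
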